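import Pool.Agent.Lib.BW.LastP12
import Pool.Agent.Lib.BW.Compress
import Pool.Agent.Lib.BW.MainP
import Pool.Agent.Lib.BW.WalkP
import Pool.Agent.Lib.BW.Kill3
import Pool.Agent.Lib.BW.Switch
import Pool.Agent.Lib.BW.Cells6
import Pool.Agent.Lib.BW.Core2
import Pool.Agent.Lib.BW.Spread
import Pool.Agent.Lib.BWP.Fam
import Pool.Agent.Lib.SL.R1g
import Pool.Agent.Lib.SL.R2
import Pool.Agent.Lib.SL.R3
import Pool.Agent.Lib.SL.R4
import Pool.Agent.Lib.SL.R5
import Pool.Agent.Lib.SL.R5bc

/-!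
# Proofs with short lines: complex lines derived from simple lines

There are unsatisfiable CNFs `F` in `N` variables with at most `N ^ (2 c + 2 d + 42)` clauses such
that the following holds for every refutation of `F` with `M` lines. The lines are circuits of
`N ^ c` gates, or functions from a given family of `2 ^ (N ^ c)` functions; every line is implied
by at most `p` earlier lines and `r` clauses of `F`. A simple line is moreover constant on the
cells of a division of the cube, every cell given by the values of at most `A` of `B` `k`-DNFs and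
of at most `δ N` parities, where `(A + 1) log₂ (M + B) ≤ δ N`. Let every complex line be derived
from simple lines with at most `S` other complex lines, and let `T` bound the size of the tree
which one obtains by unfolding this derivation. Then `p (S + 1) > N ^ d` or
`r (S + 1) > N ^ (c + d)`, and if `p ≤ N ^ d` and `r ≤ N ^ (c + d)` then
`log₂ (S + 1) * log₂ (T + 1) ≥ δ N²`.
-/

namespace Pool.Agent.Results.MP_e81270_lc.DagTreeTradeoff

open Pool.Agent.SL Pool.Agent.BW

theorem result (c d k : ℕ) (hc : 2 ≤ c) :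
    ∃ (δ : ℝ) (K ℓ₀ : ℕ), 0 < δ ∧ 0 < K ∧
      ∀ ℓ n b N : ℕ, ℓ₀ ≤ ℓ → n = 2 ^ ℓ → b = K * ℓ → N = n * b →
      ∀ V : Finset ((Fin n × Fin b → Bool) → Bool), V.card ≤ 2 ^ (N ^ c) →
        ∃ F : Finset (Clause (Fin n × Fin b)),
          (∀ x, ∃ C ∈ F, ¬ Holds C x) ∧ F.card ≤ N ^ (2 * c + 2 * d + 42) ∧
          (∀ C ∈ F, C.card ≤ 2 * b) ∧
          ∀ A B t M S T p r : ℕ, (t : ℝ) ≤ δ * N →
            ((A : ℝ) + 1) * Real.logb 2 ((M : ℝ) + B) ≤ δ * N →
              BRefutation F (fun f => f ∈ V ∨ HasCircuit (N ^ c) f) (IsSimple3 k A B t)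
                  p r M S T →
                (N ^ d < p * (S + 1) ∨ N ^ (c + d) < r * (S + 1)) ∧
                (p ≤ N ^ d → r ≤ N ^ (c + d) →
                  δ * (N : ℝ) ^ 2 ≤
                    Real.logb 2 ((S : ℝ) + 1) * Real.logb 2 ((T : ℝ) + 1)) := by
  obtain ⟨δ, K, ℓ₀, hδ, hK, h⟩ := last12 (core2 r1g (r3 r2) (r5 r4) r5b r5c) spreadC
    (kill3 switch) (mainP walkP) cells6 Pool.Agent.BWP.family3 c d k hc
  refine ⟨δ, K, ℓ₀ + 1, hδ, hK, ?_⟩
  intro ℓ n b N hℓ hn hb hN V hV
  obtain ⟨F, h1, h2, h3, h4⟩ := h ℓ n b N (by omega) hn hb hN V hV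
  refine ⟨F, h1, h2, h3, fun A B t M S T p r ht hM P => ⟨?_, fun hp hr => ?_⟩⟩
  · by_contra hcon
    rw [not_or, not_lt, not_lt] at hcon
    have h5 := h4 A B t M 0 1 ht hM (compress P (N ^ d) (N ^ (c + d)) hcon.1 hcon.2)
    have hN0 : (0 : ℝ) < N := by
      have h6 : 0 < N := by
        rw [hN, hn, hb]
        exact Nat.mul_pos (by positivity) (Nat.mul_pos hK (by omega))
      exact_mod_cast h6
    have h7 : Real.logb 2 (((0 : ℕ) : ℝ) + 1) = 0 := by simp
    rw [h7, zero_mul] at h5
    have h8 : 0 < δ * (N : ℝ) ^ 2 := by positivity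
    linarith
  · exact h4 A B t M S T ht hM (mono_pr P (N ^ d) (N ^ (c + d)) hp hr)

end Pool.Agent.Results.MP_e81270_lc.DagTreeTradeoff
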