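import Pool.Agent.Lib.EFS.MainFold

/-!
# Extended Frege: the exact trade-off between size of the lines, number of lines and sharing

`CCC_k` are the cube-connected cycles, `N` the number of its edges, so the number of variables of
the Tseitin contradiction (a 3-CNF of size linear in `N`). Let an Extended Frege refutation with
`M` lines and any number of definitions `z i ↔ D i` be given, for any finite set of sound rules.
Some of the extension variables (a set `Z`, for example all of them) are kept, the others are
unfolded (replaced by their definitions). If each line depends, directly or through definitions,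
on at most `h` kept variables, then there is a line which has together with the definitions of the
kept variables on which it depends more than
`N ^ 2 / ((log₂ M + h + 1) * 2 ^ (401 √(log₂ N)))` leaves.

So lines of any depth which are circuits with `S` leaves and `h` shared gates require
`S * (log₂ M + h + 1) ≥ N ^ (2 - o(1))`. With `h = 0` this is the trade-off for Frege refutations:
lines with at most `N ^ (2 - β)` leaves need at least `2 ^ (N ^ (β - o(1)))` lines, for every `β`
between `0` and `1`. Both are optimal up to the `o(1)`: a parity of `N` bits can be written with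
`h` block prefixes as extension variables and `O(N ^ 2 / h)` leaves.

The formulas, rules, refutations (`IsRefutation`) and the contradictions (`tseitin`) are defined in
`Pool.Agent.Lib.EFT.Def`, `Form.Occ` in `Pool.Agent.Lib.EFT.Frege`, `pUnf` and `PartialUnfolding`
in `Pool.Agent.Lib.EFS.PUnf`.
-/

set_option autoImplicit false

namespace Pool.Agent.Results.MP_e81270_lc.ExtendedFregeLineSize

open Pool.Agent.EFT Pool.Agent.EFS

theorem result (𝓡 : List FrRule) (h𝓡 : ∀ ρ ∈ 𝓡, ρ.Sound) : ∃ k₀ : ℕ, ∀ k ≥ k₀, ∀ [NeZero k],
    ∀ b : CCC.V k → ZMod 2, ∑ v, b v = 1 →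
    -- an Extended Frege refutation: lines `C`, definitions `D`, each uses only earlier ones
    ∀ (m M : ℕ) (D : Fin m → Form (CCC.E k ⊕ Fin m)) (C : Fin M → Form (CCC.E k ⊕ Fin m)),
      (∀ i j, (D i).Occ (Sum.inr j) → j < i) → IsRefutation 𝓡 (tseitin b) D C →
    -- the extension variables in `Z` are kept, the others are unfolded
    ∀ (Z : Finset (Fin m)) (U : Fin m → Form (CCC.E k ⊕ Fin m)), PartialUnfolding D Z U →
    -- `H t` contains the extension variables on which the line `t` depends, at most `h`
    ∀ (h : ℕ) (H : Fin M → Finset (Fin m)), (∀ t, (H t).card ≤ h) →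
      (∀ t j, (pUnf U (C t)).Occ (Sum.inr j) → j ∈ H t) →
      (∀ t, ∀ i ∈ H t, ∀ j, (pUnf U (D i)).Occ (Sum.inr j) → j ∈ H t) →
    ∀ N : ℝ, N = Fintype.card (CCC.E k) →
      ∃ t, N ^ 2 / ((Real.logb 2 M + h + 1) * 2 ^ (401 * √(Real.logb 2 N))) <
        (((pUnf U (C t)).leaves + ∑ i ∈ H t, (pUnf U (D i)).leaves : ℕ) : ℝ) :=
  main_fold 𝓡 h𝓡

end Pool.Agent.Results.MP_e81270_lc.ExtendedFregeLineSize
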