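import Pool.Agent.Lib.MP_e81270_lc_X3.Main

/-!
# Wide lines and extension variables in Extended Frege refutations

Random formulas in conjunctive normal form with `N` variables and polynomially many clauses of
logarithmic width: a relation between the number of lines and the number of the variables and
extension variables which occur in the wide parts of the lines.  The definitions are in
`Pool.Agent.Lib.MP_e81270_lc_X3.Defs`.
-/

set_option autoImplicit false

namespace Pool.Agent.Results.MP_e81270_lc.ExtensionVariables

open Pool.Agent.MP_e81270_lc.X3

/-- For every `P ≥ 1` there are `c > 0` and `N₀` such that for all `N ≥ N₀`, for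
`w = (P + 2) ⌊log₂ N⌋` and `M = 2 N 2 ^ w`, which is at most `N ^ (P + 4)`, the following holds for
all but a fraction of at most `1 / N` of the sequences `F` of `M` clauses of `w` literals in `N`
variables.  `F` is unsatisfiable.  Consider a refutation of `F` with `m ≤ N ^ P` extension
variables, each of them an arbitrary function of at most `log₂ N` variables and earlier extension
variables, and with `L` lines, each implied by at most `N ^ P` earlier lines and clauses of `F`.
Let `G` be any set of variables and extension variables such that each line is the disjunction of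
a clause over `G`, of any width, and of a formula with at most `c N / log N` symbols.  Then
`|G| log L ≥ c (N / log N) ^ 2`. -/
theorem result : ∀ P : ℕ, 1 ≤ P → ∃ c : ℝ, 0 < c ∧ ∃ N₀ : ℕ, ∀ N ≥ N₀, ∀ w M : ℕ,
    w = (P + 2) * Nat.log 2 N → M = 2 * N * 2 ^ w → M ≤ N ^ (P + 4) ∧
    ∃ T : Finset (Fin M → Fin w → Fin N × Bool),
      N * (Finset.univ \ T).card ≤ Fintype.card (Fin M → Fin w → Fin N × Bool) ∧
      ∀ F ∈ T, Unsat (toCNF F) ∧
        ∀ (m q L : ℕ) (R : Refutation (toCNF F) m q L) (G : Finset (Fin N ⊕ Fin m)),
          m ≤ N ^ P → q ≤ N ^ P → (∀ j, (R.defs.args j).card ≤ Nat.log 2 N) →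
          (∀ t, ∀ l ∈ (R.line t).wide, l.1 ∈ G) →
          (∀ t, ((R.line t).narrow.size : ℝ) ≤ c * N / Real.log N) →
          c * (N / Real.log N) ^ 2 ≤ G.card * Real.log L := by
  classical
  exact main

end Pool.Agent.Results.MP_e81270_lc.ExtensionVariables
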