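import Pool.Agent.Lib.MP_e81270_lc_SR.J5

/-!
# MP_e81270_lc: an exponential lower bound for substitution redundancy and dominance without new variables

There are `c > 0`, `K`, `N` such that for every `n ≥ N` there is an unsatisfiable system of at most
`2 ^ 118 * n` linear equations modulo 2 in `n` variables, each with at most `K * log n` variables
(so the CNF has at most `n ^ K` clauses), such that every refutation of it in resolution with
substitution redundancy (the rule SR of Buss and Thapen) and dominance (over clauses, for every order)
and without new variables has at least `exp (c * n / log n)` distinct clauses, those used to check the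
rules included. With new variables resolution with substitution redundancy is polynomially equivalent
to Extended Frege.
The definitions are in `Pool/Agent/Lib/MP_e81270_lc_SR/Defs.lean`.
-/

set_option autoImplicit false

namespace Pool.Agent.Results.MP_e81270_lc.SubstitutionRedundancy

open Pool.Agent.Lib.MP_e81270_lc_SR

theorem result : ∃ c : ℝ, 0 < c ∧ ∃ K N : ℕ, ∀ n ≥ N, ∃ (m : ℕ) (E : Fin m → Finset (Fin n))
    (b : Fin m → ZMod 2), m ≤ 2 ^ 118 * n ∧ (∀ i, ((E i).card : ℝ) ≤ K * Real.log n) ∧
    (cnf E b).ncard ≤ n ^ K ∧ (¬ ∃ v, ∀ C ∈ cnf E b, Sat v C) ∧
    ∀ W : Finset (Clause n), Refutes (cnf E b) W → Real.exp (c * n / Real.log n) ≤ W.card :=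
  main

end Pool.Agent.Results.MP_e81270_lc.SubstitutionRedundancy
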